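import Mathlib

/-! Compactly supported families of symplectomorphisms and the big cell condition. -/

namespace Pool.Agent.MP_630a92_gt.BC

open Set
open scoped ContDiff

/-- `ℝ^{2n}` with coordinates `(q, p)`. -/
abbrev R2 (n : ℕ) : Type := (Fin n → ℝ) × (Fin n → ℝ)

/-- The standard form `Σ dq_i ∧ dp_i` on `ℝ^{2n}`. -/
def om {n : ℕ} (u v : R2 n) : ℝ := u.1 ⬝ᵥ v.2 - u.2 ⬝ᵥ v.1

/-- The standard form on `ℝ^{2m+2k} = ℝ^{2m} × ℝ^{2k}`. -/
def omP {m k : ℕ} (u v : R2 m × R2 k) : ℝ := om u.1 v.1 + om u.2 v.2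

section

variable {E : Type} [NormedAddCommGroup E] [NormedSpace ℝ E]
  {P : Type} [NormedAddCommGroup P] [NormedSpace ℝ P]

/-- Smooth maps with a smooth two-sided inverse whose derivative preserves the form `B`. -/
def IsSymp (B : E → E → ℝ) (φ : E → E) : Prop :=
  ContDiff ℝ ∞ φ ∧
    (∃ ψ, ContDiff ℝ ∞ ψ ∧ Function.LeftInverse ψ φ ∧ Function.RightInverse ψ φ) ∧
    ∀ x u v, B (fderiv ℝ φ x u) (fderiv ℝ φ x v) = B u v

/-- A jointly smooth family over `P` of maps of class `C`, equal to the identity outside one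
compact subset of `P × E`. -/
def Fam (C : (E → E) → Prop) (φ : P → E → E) : Prop :=
  ContDiff ℝ ∞ (fun y : P × E => φ y.1 y.2) ∧ (∀ u, C (φ u)) ∧
    ∃ K : Set (P × E), IsCompact K ∧ ∀ y ∉ K, φ y.1 y.2 = y.2

/-- A jointly smooth homotopy of families of maps of class `C`, with one compact support. -/
def Homot (C : (E → E) → Prop) (φ ψ : P → E → E) : Prop :=
  ∃ H : ℝ → P → E → E,
    ContDiffOn ℝ ∞ (fun y : ℝ × P × E => H y.1 y.2.1 y.2.2) (Icc 0 1 ×ˢ univ) ∧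
    H 0 = φ ∧ H 1 = ψ ∧ (∀ t ∈ Icc (0 : ℝ) 1, ∀ u, C (H t u)) ∧
    ∃ K : Set (P × E), IsCompact K ∧ ∀ t ∈ Icc (0 : ℝ) 1, ∀ y ∉ K, H t y.1 y.2 = y.2

/-- The derivative of `φ` at `x` applied to `u`. -/
noncomputable def der (φ : E → E) (x u : E) : E := fderiv ℝ φ x u

variable {E' : Type} [NormedAddCommGroup E'] [NormedSpace ℝ E']
  {P' : Type} [NormedAddCommGroup P'] [NormedSpace ℝ P']

/-- The relation `R` is a map from `C`-families to `C'`-families that induces a bijection on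
homotopy classes. -/
def Bij (C : (E → E) → Prop) (C' : (E' → E') → Prop)
    (R : (P → E → E) → (P' → E' → E') → Prop) : Prop :=
  (∀ φ, Fam C φ → ∃! F, Fam C' F ∧ R φ F) ∧
  (∀ φ ψ F G, Fam C φ → Fam C ψ → R φ F → R ψ G → (Homot C φ ψ ↔ Homot C' F G)) ∧
  ∀ F, Fam C' F → ∃ φ G, Fam C φ ∧ Fam C' G ∧ R φ G ∧ Homot C' G F

end

variable {m k : ℕ}

/-- The `k × k` block `∂P/∂p` at `x` of a map `(z, q, p) ↦ (Z, Q, P)`. -/
noncomputable def jac (φ : R2 m × R2 k → R2 m × R2 k) (x : R2 m × R2 k) :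
    Matrix (Fin k) (Fin k) ℝ :=
  Matrix.of fun i j => (der φ x (0, 0, Pi.single j 1)).2.2 i

/-- Symplectomorphisms all of whose leading principal minors of `∂P/∂p` vanish nowhere. -/
def Cell (φ : R2 m × R2 k → R2 m × R2 k) : Prop :=
  IsSymp omP φ ∧ ∀ x, ∀ r : ℕ, ((jac φ x).toSquareBlockProp fun i => i.val < r).det ≠ 0

/-- `F` is the reduced family of `φ = (Z, Q, P)`: `F_{(u, q, P)}(z) = Z`. -/
def Red {U : Type} (φ : U → R2 m × R2 k → R2 m × R2 k) (F : U × R2 k → R2 m → R2 m) : Prop :=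
  ∀ u x, F (u, x.2.1, (φ u x).2.2) x.1 = (φ u x).1

end Pool.Agent.MP_630a92_gt.BC
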